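import Pool.Agent.L0h42.CL.Stm

/-! # Project CL (helper42), module CL: one system -/

set_option autoImplicit false
set_option linter.all false

namespace Pool.Agent.L0h84.CL
open Finset
open Pool.Agent.L0h42.TB
open Pool.Agent.L0h42.CL
open Pool.Agent.H373R2.T7
open Pool.Agent.H807R2.Dav

/-- the condition at the form `l` in terms of the value at the form `i` -/
def Cd {k : ℕ} (a0 b0 : ℤ) (h : Fin k → ℕ) (i l : Fin k) (m τ u : ℕ) : Prop :=
  (m : ℤ) ∣ (u : ℤ) + (gz a0 b0 ((τ : ℤ) + h l) - gz a0 b0 ((τ : ℤ) + h i))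

lemma gz_sub (a0 b0 t u v : ℤ) :
    gz a0 b0 (t + u) - gz a0 b0 (t + v) = (u - v) * (2 * a0 * t + (a0 * (u + v) + b0)) := by
  unfold gz
  ring

lemma mod_dvd_sub {m q t : ℕ} (hm : m ∣ q) : (m : ℤ) ∣ (t : ℤ) - ((t % q : ℕ) : ℤ) := by
  have h1 : (q : ℤ) ∣ (t : ℤ) - ((t % q : ℕ) : ℤ) := by
    rw [Int.natCast_mod]
    exact Int.dvd_self_sub_emod
  exact (Int.natCast_dvd_natCast.2 hm).trans h1

lemma Cd_congr {k : ℕ} {a0 b0 : ℤ} {h : Fin k → ℕ} {i l : Fin k} {m τ u τ' u' : ℕ}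
    (h1 : (m : ℤ) ∣ (τ : ℤ) - τ') (h2 : (m : ℤ) ∣ (u : ℤ) - u') :
    Cd a0 b0 h i l m τ u ↔ Cd a0 b0 h i l m τ' u' := by
  unfold Cd
  rw [gz_sub, gz_sub]
  have h3 : (m : ℤ) ∣ ((u : ℤ) + ((h l : ℤ) - h i) * (2 * a0 * τ + (a0 * ((h l : ℤ) + h i) + b0))) -
      ((u' : ℤ) + ((h l : ℤ) - h i) * (2 * a0 * τ' + (a0 * ((h l : ℤ) + h i) + b0))) := by
    have e : ((u : ℤ) + ((h l : ℤ) - h i) * (2 * a0 * τ + (a0 * ((h l : ℤ) + h i) + b0))) -
      ((u' : ℤ) + ((h l : ℤ) - h i) * (2 * a0 * τ' + (a0 * ((h l : ℤ) + h i) + b0))) =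
      ((u : ℤ) - u') + ((τ : ℤ) - τ') * (((h l : ℤ) - h i) * (2 * a0)) := by ring
    rw [e]
    exact dvd_add h2 (h1.mul_right _)
  exact (Int.dvd_iff_dvd_of_dvd_sub h3)

lemma Cd_uniq {k : ℕ} {a0 b0 : ℤ} {h : Fin k → ℕ} {i l : Fin k} {m τ τ' u : ℕ}
    (hc : IsCoprime (m : ℤ) (2 * a0 * ((h l : ℤ) - h i)))
    (h1 : Cd a0 b0 h i l m τ u) (h2 : Cd a0 b0 h i l m τ' u) : (m : ℤ) ∣ (τ : ℤ) - τ' := by
  unfold Cd at h1 h2
  rw [gz_sub] at h1 h2
  have h3 := dvd_sub h1 h2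
  have e : ((u : ℤ) + ((h l : ℤ) - h i) * (2 * a0 * τ + (a0 * ((h l : ℤ) + h i) + b0))) -
      ((u : ℤ) + ((h l : ℤ) - h i) * (2 * a0 * τ' + (a0 * ((h l : ℤ) + h i) + b0))) =
      (2 * a0 * ((h l : ℤ) - h i)) * ((τ : ℤ) - τ') := by ring
  rw [e] at h3
  exact hc.dvd_of_dvd_mul_left h3

/-- the number of elements of a residue class -/
lemma class_card {X q : ℕ} (hq : 1 ≤ q) (hqX : q ≤ X) (s : Finset ℕ) (hs : s ⊆ Icc 1 X)
    (hm : ∀ a ∈ s, ∀ b ∈ s, (q : ℤ) ∣ (a : ℤ) - b) : s.card * q ≤ 2 * X := by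
  have h1 : s.card ≤ (range (X / q + 1)).card := by
    refine card_le_card_of_injOn (fun a => a / q) ?_ ?_
    · intro a ha
      have := mem_Icc.1 (hs ha)
      simp only [coe_range, Set.mem_Iio]
      exact Nat.lt_succ_of_le (Nat.div_le_div_right this.2)
    · intro a ha b hb hab
      have h2 := hm a ha b hb
      have h3 : a % q = b % q := by
        have : (a : ℤ) % q = (b : ℤ) % q :=
          Int.emod_eq_emod_iff_emod_sub_eq_zero.2 (Int.emod_eq_zero_of_dvd h2)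
        exact_mod_cast this
      have h4 : a / q = b / q := hab
      have h5 := Nat.div_add_mod a q
      have h6 := Nat.div_add_mod b q
      rw [h4, h3] at h5
      exact h5.symm.trans h6
  rw [card_range] at h1
  calc s.card * q ≤ (X / q + 1) * q := Nat.mul_le_mul_right _ h1
    _ = X / q * q + q := by ring
    _ ≤ X + X := Nat.add_le_add (Nat.div_mul_le_self _ _) hqX
    _ = 2 * X := by ring

/-- the coefficient is invertible -/
lemma small_coef {k K : ℕ} {a0 : ℤ} {h : Fin k → ℕ} (ha0 : 1 ≤ a0) (hinj : Function.Injective h)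
    (hK : ∀ l, 2 * a0 * (h l + 1) ≤ K) {i l : Fin k} (hl : l ≠ i) {m : ℕ}
    (hm : ∀ p : ℕ, p.Prime → p ∣ m → K < p) : IsCoprime (m : ℤ) (2 * a0 * ((h l : ℤ) - h i)) := by
  have hne : (h l : ℤ) - h i ≠ 0 := by
    intro h0
    apply hl
    apply hinj
    have : (h l : ℤ) = h i := by linarith
    exact_mod_cast this
  have hD : (2 * a0 * ((h l : ℤ) - h i)) ≠ 0 := by
    apply mul_ne_zero _ hne
    omega
  have hle : |2 * a0 * ((h l : ℤ) - h i)| ≤ K := by
    have h1 := hK l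
    have h2 := hK i
    have h3 : (0 : ℤ) ≤ h l := Int.natCast_nonneg _
    have h4 : (0 : ℤ) ≤ h i := Int.natCast_nonneg _
    rw [abs_le]
    constructor <;> nlinarith
  rw [Int.isCoprime_iff_gcd_eq_one]
  have h5 : Nat.Coprime m (2 * a0 * ((h l : ℤ) - h i)).natAbs := by
    apply Nat.coprime_of_dvd
    intro p hp hpm hpd
    have h6 := hm p hp hpm
    have h7 : p ≤ (2 * a0 * ((h l : ℤ) - h i)).natAbs :=
      Nat.le_of_dvd (Int.natAbs_pos.2 hD) hpd
    have h8 : ((2 * a0 * ((h l : ℤ) - h i)).natAbs : ℤ) ≤ K := by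
      rw [Int.natCast_natAbs]
      exact hle
    have h9 : (2 * a0 * ((h l : ℤ) - h i)).natAbs ≤ K := by exact_mod_cast h8
    omega
  rw [Int.gcd, Int.natAbs_natCast]
  exact h5

open Classical in
/-- the number of the classes at a prime of `S` -/
lemma card_A {k K : ℕ} {a0 b0 : ℤ} {h : Fin k → ℕ} (ha0 : 1 ≤ a0) (hinj : Function.Injective h)
    (hK : ∀ l, 2 * a0 * (h l + 1) ≤ K) (hkK : k ≤ K) (i : Fin k) {p : ℕ} (hp : p.Prime) (u : ℕ) :
    ((range p).filter (fun ρ => ∃ l, l ≠ i ∧ Cd a0 b0 h i l p ρ u)).card ≤ K := by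
  by_cases hpK : p ≤ K
  · refine (card_filter_le _ _).trans ?_
    rw [card_range]
    exact hpK
  · push Not at hpK
    have hsub : (range p).filter (fun ρ => ∃ l, l ≠ i ∧ Cd a0 b0 h i l p ρ u) ⊆
        (univ.filter fun l => l ≠ i).biUnion
          (fun l => (range p).filter (fun ρ => Cd a0 b0 h i l p ρ u)) := by
      intro ρ hρ
      rw [mem_filter] at hρ
      obtain ⟨h1, l, h2, h3⟩ := hρ
      rw [mem_biUnion]
      exact ⟨l, mem_filter.2 ⟨mem_univ _, h2⟩, mem_filter.2 ⟨h1, h3⟩⟩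
    refine (card_le_card hsub).trans (card_biUnion_le.trans ?_)
    have h1 : ∀ l ∈ univ.filter (fun l => l ≠ i),
        ((range p).filter (fun ρ => Cd a0 b0 h i l p ρ u)).card ≤ 1 := by
      intro l hl
      rw [mem_filter] at hl
      rw [card_le_one]
      intro ρ hρ ρ' hρ'
      rw [mem_filter, mem_range] at hρ hρ'
      have hc := small_coef ha0 hinj hK hl.2 (m := p) (fun p' hp' hd => by
        rw [(Nat.prime_dvd_prime_iff_eq hp' hp).1 hd]
        exact hpK)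
      have h2 := Cd_uniq hc hρ.2 hρ'.2
      have h3 : (ρ : ℤ) - ρ' = 0 := by
        apply Int.eq_zero_of_abs_lt_dvd h2
        rw [abs_lt]
        constructor <;> omega
      have h4 : (ρ : ℤ) = ρ' := by linarith
      exact_mod_cast h4
    refine (sum_le_sum h1).trans ?_
    rw [sum_const, smul_eq_mul, mul_one]
    refine (card_filter_le _ _).trans ?_
    rw [card_univ, Fintype.card_fin]
    exact hkK

/-- **CL** -/
theorem t_CL (hPV : S_PV) : S_CL := by
  classical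
  intro k K a0 b0 h i z R X Y T1 T2 ha0 hinj hK hkK hKz hT hval S hS x hx hxi hqX
  obtain ⟨hx1, hx2⟩ := mem_filter.1 hx
  rw [mem_product] at hx1
  unfold Conf at hx2
  rw [not_not] at hx2
  obtain ⟨a1, a2, a3⟩ := lc_rough hx1.1 hx1.2
  have hSp : ∀ p ∈ S, p.Prime := fun p hp => (mem_pz.1 (hS hp)).2
  have hSz : ∀ p ∈ S, p ≤ z := fun p hp => (mem_pz.1 (hS hp)).1
  have hS1 : 1 ≤ ∏ p ∈ S, p := Nat.pos_of_ne_zero (prod_ne_zero_iff.2 fun p hp => (hSp p hp).ne_zero)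
  have hl1 : 1 ≤ mo x := Nat.pos_of_ne_zero (prod_ne_zero_iff.2 fun l _ => by have := a1 l; omega)
  obtain ⟨q, hq⟩ : ∃ q : ℕ, q = (∏ p ∈ S, p) * mo x := ⟨_, rfl⟩
  have hq1 : 1 ≤ q := by rw [hq]; exact Nat.mul_pos hS1 hl1
  rw [← hq] at hqX ⊢
  have hSq : ∀ p ∈ S, p ∣ q := fun p hp => by
    rw [hq]; exact (dvd_prod_of_mem _ hp).mul_right _
  have hlq : ∀ l, lc x l ∣ q := fun l => by
    rw [hq]; exact (dvd_prod_of_mem _ (mem_univ l)).mul_left _
  have hcop : Nat.Coprime (∏ p ∈ S, p) (mo x) := by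
    unfold mo
    rw [Nat.coprime_prod_left_iff]
    intro p hp
    rw [Nat.coprime_prod_right_iff]
    intro l _
    rw [Nat.Prime.coprime_iff_not_dvd (hSp p hp)]
    exact a2 l p (hS hp)
  have hbig : ∀ l, ∀ p : ℕ, p.Prime → p ∣ lc x l → K < p := by
    intro l p hp hd
    by_contra hc
    exact a2 l p (mem_pz.2 ⟨by omega, hp⟩) hd
  obtain ⟨G, hG⟩ : ∃ G : ℕ → ℕ, ∀ t, G t = (gz a0 b0 ((t : ℤ) + h i)).toNat := ⟨_, fun _ => rfl⟩
  have hGc : ∀ t ∈ Ioc T1 T2, (G t : ℤ) = gz a0 b0 ((t : ℤ) + h i) := by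
    intro t ht
    rw [hG, Int.toNat_of_nonneg]
    have := (hval t ht i).1
    have h2 : (0 : ℤ) ≤ z := Int.natCast_nonneg _
    linarith
  have hva : ∀ a : ℕ, ∀ t ∈ Ioc T1 T2, va a0 b0 a (t + h i) = a + G t := by
    intro a t ht
    unfold va
    rw [Nat.cast_add, ← hGc t ht]
    exact_mod_cast rfl
  have hCd : ∀ a : ℕ, ∀ t ∈ Ioc T1 T2, ∀ (l : Fin k) (m : ℕ),
      Cd a0 b0 h i l m t (a + G t) ↔ (m : ℤ) ∣ (a : ℤ) - cq a0 b0 h t l := by
    intro a t ht l m
    unfold Cd cq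
    rw [Nat.cast_add, hGc t ht]
    have e : ((a : ℤ) + gz a0 b0 ((t : ℤ) + h i)) + (gz a0 b0 ((t : ℤ) + h l) -
        gz a0 b0 ((t : ℤ) + h i)) = (a : ℤ) - -gz a0 b0 ((t : ℤ) + h l) := by ring
    rw [e]
  obtain ⟨P, hP⟩ : ∃ P : Finset (ℕ × ℕ), P = (range q ×ˢ range q).filter (fun y =>
      (∀ l, l ≠ i → Cd a0 b0 h i l (lc x l) y.1 y.2) ∧
      ∀ p ∈ S, ¬ p ∣ y.2 ∧ ∃ l, l ≠ i ∧ Cd a0 b0 h i l p y.1 y.2) := ⟨_, rfl⟩
  -- the classes
  have hPmem : ∀ a : ℕ, ∀ t ∈ Ioc T1 T2, ((t % q, (a + G t) % q) ∈ P ↔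
      t ∈ TT a0 b0 h T1 T2 (lc x) S a ∧ ∀ p ∈ S, ¬ p ∣ a + G t) := by
    intro a t ht
    have c1 : ∀ (l : Fin k) (m : ℕ), m ∣ q → (Cd a0 b0 h i l m (t % q) ((a + G t) % q) ↔
        (m : ℤ) ∣ (a : ℤ) - cq a0 b0 h t l) := by
      intro l m hm
      rw [← hCd a t ht l m]
      exact (Cd_congr (mod_dvd_sub hm) (mod_dvd_sub hm)).symm
    have c2 : ∀ p ∈ S, (¬ p ∣ (a + G t) % q ↔ ¬ p ∣ a + G t) := by
      intro p hp
      rw [Nat.dvd_mod_iff (hSq p hp)]
    have c3 : ∀ p ∈ S, ¬ p ∣ a + G t → ((∃ l, l ≠ i ∧ Cd a0 b0 h i l p (t % q) ((a + G t) % q)) ↔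
        Som (cq a0 b0 h t) p a) := by
      intro p hp hnd
      unfold Som
      constructor
      · rintro ⟨l, -, hl⟩
        exact ⟨l, (c1 l p (hSq p hp)).1 hl⟩
      · rintro ⟨l, hl⟩
        refine ⟨l, ?_, (c1 l p (hSq p hp)).2 hl⟩
        rintro rfl
        apply hnd
        have : (a : ℤ) - cq a0 b0 h t l = ((a + G t : ℕ) : ℤ) := by
          unfold cq
          rw [Nat.cast_add, hGc t ht]
          ring
        rw [this] at hl
        exact_mod_cast hl
    rw [hP, mem_filter, mem_product, mem_range, mem_range]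
    unfold TT
    rw [mem_filter]
    unfold Hit
    constructor
    · rintro ⟨-, h1, h2⟩
      refine ⟨⟨ht, fun l => ?_, fun p hp => ?_⟩, fun p hp => (c2 p hp).1 (h2 p hp).1⟩
      · by_cases hl : l = i
        · rw [hl, hxi]
          exact one_dvd _
        · exact (c1 l _ (hlq l)).1 (h1 l hl)
      · exact (c3 p hp ((c2 p hp).1 (h2 p hp).1)).1 (h2 p hp).2
    · rintro ⟨⟨-, h1, h2⟩, h3⟩
      refine ⟨⟨Nat.mod_lt _ hq1, Nat.mod_lt _ hq1⟩, fun l _ => (c1 l _ (hlq l)).2 (h1 l),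
        fun p hp => ⟨(c2 p hp).2 (h3 p hp), (c3 p hp (h3 p hp)).2 (h2 p hp)⟩⟩
  -- the number of the classes
  have hcnt : ∀ u, (P.filter (fun y => y.2 = u)).card ≤ K ^ S.card := by
    intro u
    have h1 : (P.filter (fun y => y.2 = u)).card ≤
        (S.pi (fun p => (range p).filter (fun ρ => ∃ l, l ≠ i ∧ Cd a0 b0 h i l p ρ u))).card := by
      refine card_le_card_of_injOn (fun y => fun p _ => y.1 % p) ?_ ?_
      · intro y hy
        rw [mem_coe, mem_filter, hP, mem_filter, mem_product, mem_range, mem_range] at hy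
        obtain ⟨⟨⟨y1, y2⟩, y3, y4⟩, y5⟩ := hy
        rw [mem_coe, mem_pi]
        intro p hp
        rw [mem_filter, mem_range]
        refine ⟨Nat.mod_lt _ (hSp p hp).pos, ?_⟩
        obtain ⟨l, hl, hc⟩ := (y4 p hp).2
        refine ⟨l, hl, ?_⟩
        rw [y5] at hc
        exact (Cd_congr (mod_dvd_sub (dvd_refl p)) (by rw [sub_self]; exact dvd_zero _)).1 hc
      · intro y hy y' hy' hyy
        rw [mem_coe, mem_filter, hP, mem_filter, mem_product, mem_range, mem_range] at hy hy'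
        obtain ⟨⟨⟨y1, y2⟩, y3, y4⟩, y5⟩ := hy
        obtain ⟨⟨⟨z1, z2⟩, z3, z4⟩, z5⟩ := hy'
        have d1 : ∀ p ∈ S, (p : ℤ) ∣ (y.1 : ℤ) - y'.1 := by
          intro p hp
          have e1 : y.1 % p = y'.1 % p := congrFun (congrFun hyy p) hp
          have e2 := mod_dvd_sub (t := y.1) (dvd_refl p)
          have e3 := mod_dvd_sub (t := y'.1) (dvd_refl p)
          rw [e1] at e2
          have e4 := dvd_sub e2 e3
          rwa [sub_sub_sub_cancel_right] at e4
        have d2 : ∀ l, (lc x l : ℤ) ∣ (y.1 : ℤ) - y'.1 := by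
          intro l
          by_cases hl : l = i
          · rw [hl, hxi]
            exact one_dvd _
          · have e1 := y3 l hl
            have e2 := z3 l hl
            rw [y5] at e1
            rw [z5] at e2
            exact Cd_uniq (small_coef ha0 hinj hK hl (hbig l)) e1 e2
        have d3 : (∏ p ∈ S, (p : ℤ)) ∣ (y.1 : ℤ) - y'.1 := by
          apply prod_dvd_of_coprime
          · intro p hp p' hp' hne
            exact Nat.isCoprime_iff_coprime.2 ((Nat.coprime_primes (hSp p hp) (hSp p' hp')).2 hne)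
          · exact d1
        have d4 : (∏ l, (lc x l : ℤ)) ∣ (y.1 : ℤ) - y'.1 := by
          apply prod_dvd_of_coprime
          · intro l _ l' _ hne
            exact Nat.isCoprime_iff_coprime.2 (hx2 l l' hne)
          · exact fun l _ => d2 l
        have d5 : (q : ℤ) ∣ (y.1 : ℤ) - y'.1 := by
          rw [hq]
          unfold mo
          push_cast
          refine IsCoprime.mul_dvd ?_ d3 d4
          have := Nat.isCoprime_iff_coprime.2 hcop
          unfold mo at this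
          push_cast at this
          exact this
        have d6 : (y.1 : ℤ) - y'.1 = 0 := by
          apply Int.eq_zero_of_abs_lt_dvd d5
          rw [abs_lt]
          constructor <;> omega
        have d7 : y.1 = y'.1 := by
          have : (y.1 : ℤ) = y'.1 := by linarith
          exact_mod_cast this
        exact Prod.ext d7 (y5.trans z5.symm)
    refine h1.trans ?_
    rw [card_pi]
    refine (prod_le_prod' (g := fun _ => K) fun p hp =>
      card_A ha0 hinj hK hkK i (hSp p hp) u).trans ?_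
    rw [prod_const]
  have hPcard : P.card ≤ q * K ^ S.card := by
    rw [card_eq_sum_card_fiberwise (f := fun y => y.2) (t := range q) (by
      intro y hy
      rw [mem_coe, hP, mem_filter, mem_product] at hy
      exact hy.1.2)]
    refine (sum_le_sum fun u _ => hcnt u).trans ?_
    rw [sum_const, card_range, smul_eq_mul]
  -- the fibres
  obtain ⟨Fb, hFb⟩ : ∃ Fb : ℕ × ℕ → ℕ → Finset ℕ, ∀ y a, Fb y a =
      (Ioc T1 T2).filter (fun t => t % q = y.1 ∧ (a + G t) % q = y.2) := ⟨_, fun _ _ => rfl⟩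
  have hsplit : ∀ a ∈ Icc 1 X, ∑ t ∈ TT a0 b0 h T1 T2 (lc x) S a, dl z (va a0 b0 a (t + h i)) =
      ∑ y ∈ P, ∑ t ∈ Fb y a, dl z (a + G t) := by
    intro a ha
    have e1 : ∑ t ∈ TT a0 b0 h T1 T2 (lc x) S a, dl z (va a0 b0 a (t + h i)) =
        ∑ t ∈ (Ioc T1 T2).filter (fun t => (t % q, (a + G t) % q) ∈ P), dl z (a + G t) := by
      symm
      have hsub : (Ioc T1 T2).filter (fun t => (t % q, (a + G t) % q) ∈ P) ⊆
          TT a0 b0 h T1 T2 (lc x) S a := by
        intro t ht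
        rw [mem_filter] at ht
        exact ((hPmem a t ht.1).1 ht.2).1
      rw [← sum_subset hsub (f := fun t => dl z (va a0 b0 a (t + h i))) (by
        intro t ht ht2
        have ht1 : t ∈ Ioc T1 T2 := by
          unfold TT at ht
          exact (mem_filter.1 ht).1
        have h3 : ¬ ∀ p ∈ S, ¬ p ∣ a + G t := fun hh =>
          ht2 (mem_filter.2 ⟨ht1, (hPmem a t ht1).2 ⟨ht, hh⟩⟩)
        push Not at h3
        obtain ⟨p, hp, hpd⟩ := h3
        rw [hva a t ht1]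
        unfold dl
        refine pl_zero (hS hp) ?_ hpd
        have h4 := (hval t ht1 i).1
        have h5 : (z : ℤ) ≤ G t := by rw [hGc t ht1]; exact h4
        have h6 : z ≤ G t := by exact_mod_cast h5
        have h7 := (mem_Icc.1 ha).1
        omega)]
      refine sum_congr rfl fun t ht => ?_
      rw [hva a t (mem_filter.1 ht).1]
    rw [e1, ← sum_fiberwise_of_maps_to (t := P) (g := fun t => (t % q, (a + G t) % q)) (by
      intro t ht
      exact (mem_filter.1 ht).2)]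
    refine sum_congr rfl fun y hy => ?_
    refine sum_congr ?_ fun _ _ => rfl
    rw [hFb]
    ext t
    rw [mem_filter, mem_filter, mem_filter]
    constructor
    · rintro ⟨⟨h1, h2⟩, h3⟩
      exact ⟨h1, congrArg Prod.fst h3, congrArg Prod.snd h3⟩
    · rintro ⟨h1, h2, h3⟩
      have h4 : (t % q, (a + G t) % q) = y := Prod.ext h2 h3
      exact ⟨⟨h1, by rw [h4]; exact hy⟩, h4⟩
  obtain ⟨E, hE⟩ : ∃ E : ℕ × ℕ → Finset ℕ, ∀ y, E y =
      (Icc 1 X).filter (fun a => (Fb y a).Nonempty) := ⟨_, fun _ => rfl⟩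
  have hEc : ∀ y, (E y).card * q ≤ 2 * X := by
    intro y
    refine class_card hq1 hqX _ (by rw [hE]; exact filter_subset _ _) ?_
    intro a ha b hb
    rw [hE, mem_filter, hFb] at ha hb
    obtain ⟨-, t, ht⟩ := ha
    obtain ⟨-, t', ht'⟩ := hb
    rw [mem_filter] at ht ht'
    have f1 : (q : ℤ) ∣ ((a + G t : ℕ) : ℤ) - ((b + G t' : ℕ) : ℤ) := by
      have g1 := mod_dvd_sub (t := a + G t) (dvd_refl q)
      have g2 := mod_dvd_sub (t := b + G t') (dvd_refl q)
      rw [ht.2.2] at g1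
      rw [ht'.2.2] at g2
      have g3 := dvd_sub g1 g2
      rwa [sub_sub_sub_cancel_right] at g3
    have f2 : (q : ℤ) ∣ (t : ℤ) - t' := by
      have g1 := mod_dvd_sub (t := t) (dvd_refl q)
      have g2 := mod_dvd_sub (t := t') (dvd_refl q)
      rw [ht.2.1] at g1
      rw [ht'.2.1] at g2
      have g3 := dvd_sub g1 g2
      rwa [sub_sub_sub_cancel_right] at g3
    have f3 : (q : ℤ) ∣ (G t : ℤ) - G t' := by
      rw [hGc t ht.1, hGc t' ht'.1]
      have e : gz a0 b0 ((t : ℤ) + h i) - gz a0 b0 ((t' : ℤ) + h i) =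
          ((t : ℤ) - t') * (a0 * ((t : ℤ) + t' + 2 * h i) + b0) := by
        unfold gz
        ring
      rw [e]
      exact f2.mul_right _
    have f4 := dvd_sub f1 f3
    have e : ((a + G t : ℕ) : ℤ) - ((b + G t' : ℕ) : ℤ) - ((G t : ℤ) - G t') = (a : ℤ) - b := by
      push_cast
      ring
    rwa [e] at f4
  have hEtot : ∑ y ∈ P, (E y).card ≤ K ^ S.card * (2 * X) := by
    have g1 : (∑ y ∈ P, (E y).card) * q ≤ P.card * (2 * X) := by
      rw [sum_mul]
      refine (sum_le_sum fun y _ => hEc y).trans ?_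
      rw [sum_const, smul_eq_mul]
    have g2 : P.card * (2 * X) ≤ (K ^ S.card * (2 * X)) * q := by
      calc P.card * (2 * X) ≤ (q * K ^ S.card) * (2 * X) := Nat.mul_le_mul_right _ hPcard
        _ = (K ^ S.card * (2 * X)) * q := by ring
    exact Nat.le_of_mul_le_mul_right (g1.trans g2) hq1
  -- the bound
  obtain ⟨f, hf⟩ : ∃ f : ℕ × ℕ → ℕ → ℝ, ∀ y a, f y a = ∑ t ∈ Fb y a, dl z (a + G t) :=
    ⟨_, fun _ _ => rfl⟩
  have hL : ∑ a ∈ Icc 1 X, |∑ t ∈ TT a0 b0 h T1 T2 (lc x) S a, dl z (va a0 b0 a (t + h i))| ≤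
      ∑ w ∈ P.sigma E, |f w.1 w.2| := by
    rw [sum_sigma]
    calc ∑ a ∈ Icc 1 X, |∑ t ∈ TT a0 b0 h T1 T2 (lc x) S a, dl z (va a0 b0 a (t + h i))| ≤
        ∑ a ∈ Icc 1 X, ∑ y ∈ P, |f y a| := by
          refine sum_le_sum fun a ha => ?_
          rw [hsplit a ha]
          refine (abs_sum_le_sum_abs _ _).trans (sum_le_sum fun y _ => ?_)
          rw [hf]
      _ = ∑ y ∈ P, ∑ a ∈ Icc 1 X, |f y a| := sum_comm
      _ = ∑ y ∈ P, ∑ a ∈ E y, |f y a| := by
          refine sum_congr rfl fun y _ => ?_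
          symm
          rw [hE]
          refine sum_subset (filter_subset _ _) fun a ha ha2 => ?_
          have : ¬ (Fb y a).Nonempty := fun hh => ha2 (mem_filter.2 ⟨ha, hh⟩)
          rw [not_nonempty_iff_eq_empty] at this
          rw [hf, this, sum_empty, abs_zero]
      _ ≤ _ := le_rfl
  obtain ⟨I, hI⟩ : ∃ I : ℝ, I = ∫ α in (0 : ℝ)..1, WD a0 (T2 - T1) q α *
      ‖∑ n ∈ Icc 1 Y, ((dl z n : ℝ) : ℂ) * ee (n * α)‖ ^ 2 := ⟨_, rfl⟩
  rw [← hI]
  have hpv : ∑ y ∈ P, ∑ a ∈ Icc 1 X, (f y a) ^ 2 ≤ ((K ^ S.card : ℕ) : ℝ) * I := by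
    have g := hPV a0 (b0 + 2 * a0 * h i) (gz a0 b0 (h i)) G T1 T2 (T2 - T1) q X Y (K ^ S.card)
      (dl z) P hq1 hT le_rfl (by
        intro t ht
        rw [hGc t ht]
        unfold gz
        ring) (by
        intro t ht
        have g1 := (hval t ht i).2
        rw [← hGc t ht] at g1
        exact_mod_cast g1) (by
        rw [hP]
        exact filter_subset _ _) hcnt
    rw [← hI] at g
    refine le_trans (le_of_eq ?_) g
    refine sum_congr rfl fun y _ => sum_congr rfl fun a _ => ?_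
    rw [hf, hFb]
  have hsq : (∑ w ∈ P.sigma E, |f w.1 w.2|) ^ 2 ≤
      ((K : ℝ) ^ S.card) ^ 2 * (2 * X * I) := by
    have g1 := sq_sum_le_card_mul_sum_sq (s := P.sigma E) (f := fun w => |f w.1 w.2|)
    have g2 : ((P.sigma E).card : ℝ) ≤ (K : ℝ) ^ S.card * (2 * X) := by
      rw [card_sigma]
      exact_mod_cast hEtot
    have g3 : ∑ w ∈ P.sigma E, |f w.1 w.2| ^ 2 ≤ (K : ℝ) ^ S.card * I := by
      have g4 : ∑ w ∈ P.sigma E, |f w.1 w.2| ^ 2 ≤ ∑ y ∈ P, ∑ a ∈ Icc 1 X, (f y a) ^ 2 := by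
        rw [sum_sigma]
        refine sum_le_sum fun y _ => ?_
        have g5 : ∀ a, |f y a| ^ 2 = f y a ^ 2 := fun a => sq_abs _
        simp only [g5]
        refine sum_le_sum_of_subset_of_nonneg ?_ fun a _ _ => sq_nonneg _
        rw [hE]
        exact filter_subset _ _
      refine (g4.trans hpv).trans (le_of_eq ?_)
      push_cast
      rfl
    have g6 : (0 : ℝ) ≤ ∑ w ∈ P.sigma E, |f w.1 w.2| ^ 2 := sum_nonneg fun w _ => sq_nonneg _
    calc (∑ w ∈ P.sigma E, |f w.1 w.2|) ^ 2 ≤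
        ((P.sigma E).card : ℝ) * ∑ w ∈ P.sigma E, |f w.1 w.2| ^ 2 := g1
      _ ≤ ((K : ℝ) ^ S.card * (2 * X)) * ((K : ℝ) ^ S.card * I) :=
          mul_le_mul g2 g3 g6 (by positivity)
      _ = _ := by ring
  refine hL.trans ?_
  have h10 : ∑ w ∈ P.sigma E, |f w.1 w.2| ≤ √(((K : ℝ) ^ S.card) ^ 2 * (2 * X * I)) :=
    Real.le_sqrt_of_sq_le hsq
  rw [Real.sqrt_mul (by positivity), Real.sqrt_sq (by positivity),
    Real.sqrt_mul (by positivity)] at h10
  exact h10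

end Pool.Agent.L0h84.CL
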